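import Mathlib
import Pool.Agent.V8H17.LPM.Definable

/-!
# Lattice path matroids are characterised by a sentence of `MS₀`

The definitions (formulas of `MS₀`, satisfaction, lattice path matroids) are in
`Pool/Agent/V8H17/LPM/Defs.lean`.

The sentence says: for every connected separator `K` (component) there are sets `x`, `y` such that
the connected relative flats `X ⊆ K` that contain `x` form a chain, so do the connected relative flats
`Y ⊆ K` that contain `y`, for all such `X`, `Y` either `X ∩ Y = ∅` or `X ∪ Y = K`, and for every
circuit `C ⊆ K` there are such `X`, `Y` which form a modular pair, with `X ∪ Y = K`, and `C` is a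
subset of `X ∩ Y` which spans `X ∩ Y`.
-/

namespace Pool.Agent.Results.MP_b5ca43_co.LatticePathSentence

open Pool.Agent.V8H17.LPM

universe u

/-- There is a sentence `φ` of `MS₀` such that a finite matroid `M` satisfies `φ` if and only if `M`
is a lattice path matroid. -/
theorem result : ∃ φ : Sentence, ∀ (α : Type u) (M : Matroid α), M.E.Finite →
    (Models M φ ↔ IsLatticePathMatroid M) :=
  exists_sentence

end Pool.Agent.Results.MP_b5ca43_co.LatticePathSentence
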